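import Pool.Agent.Helper19.RD.Stmts9

/-! Project RD, T4 (dual of the theorem with one modulus `r` coprime to `q`): if many primes up to
`y` divide `q`, then `#S ≤ C N ^ ε (√N + √(log q / y))`. Split primes are rare at every scale. -/

set_option autoImplicit false

namespace Pool.Agent.Helper97.RD8

open Finset Pool.Agent.Helper18.RD Pool.Agent.Helper19.RD

/-- difference of two points -/
def df (i j : ℕ) : ℤ := (i : ℤ) - j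

/-- SQC: Cauchy–Schwarz twice. -/
def ST_SQC : Prop := ∀ (J : Finset ℕ) (A : ℕ → ℕ → ℤ) (F G : ℕ → ℤ),
  (∀ n, |F n| ≤ 1) → (∀ n, |G n| ≤ 1) → (∀ i, A i i = 0) →
  (∑ i ∈ J, ∑ j ∈ J, A i j * F i * G j) ^ 4 ≤ (J.card : ℤ) ^ 4 * ∑ t ∈ T4 J, cyc A t

/-- FS4 (from SQC; first half as in `Helper41/RD8/SP2.lean`, `per_prime`, with `p > 2 N`): at a split
prime of `q` the sum of the characters of the 4-cycles of the differences is large. -/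
def ST_FS4 : Prop := ∀ (N q a : ℕ) (S J : Finset ℕ) (e c d : ℕ → ℕ → ℤ) (k : ℤ) (w ξ ρ : ℝ)
  (m : ℕ → ℤ) (x y p : ℕ), DatR N q a S e c d k w m → J ⊆ S → x ∈ J → y ∈ J → x ≠ y →
  ((NQ J d x y).card : ℝ) ≤ ξ * (J.card : ℝ) ^ 2 → 0 < ρ → 16 * ξ ≤ ρ → 100 ≤ ρ * J.card →
  p ∈ OP q → 2 * N < p →
  ρ * (J.card : ℝ) ^ 2 ≤ ((Sg J e p 1).card : ℝ) * ((Sg J e p (-1)).card : ℝ) →
  ρ ^ 4 / 16 * (J.card : ℝ) ^ 4 ≤ ∑ t ∈ T4 J, (jacobiSym (cyc df t) p : ℝ)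

/-- SPB (from WL1 with `K = 10`, END2 with `c = df`, `d = 1`, `k = 1`): such primes are rare. -/
def ST_SPB : Prop := ∃ C : ℝ, 0 < C ∧ ∀ (N z x : ℕ) (J U : Finset ℕ) (β : ℝ), 1 ≤ N → N ≤ z →
  1 ≤ x → J ⊆ range N → N ≤ J.card ^ 2 → 0 < β →
  (∀ p ∈ U, p.Prime ∧ p ≠ 2 ∧ z ≤ p ∧ p ≤ x) →
  (∀ p ∈ U, β * (J.card : ℝ) ^ 4 ≤ ∑ t ∈ T4 J, (jacobiSym (cyc df t) p : ℝ)) →
  β ^ 20 * ((U.card : ℝ) / x) ^ 10 ≤ C * (1 + Real.log x) * (N : ℝ) ^ (-(1 / 20) : ℝ)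

/-- PIU: Chebyshev's upper bound. -/
def ST_PIU : Prop := ∃ C : ℝ, 0 < C ∧ ∀ y : ℕ, 2 ≤ y →
  (Nat.primeCounting y : ℝ) * Real.log y ≤ C * y

/-- MAIN11 (from A1, PG, FS4, SPB, UNS, MAIN8, PIU; compare `Helper39/RD8/MAIN8.lean`). -/
def ST_MAIN11 : Prop := ∀ ε : ℝ, 0 < ε → ∃ C δ : ℝ, 0 < C ∧ 0 < δ ∧ ∀ N q a y : ℕ, 1 ≤ N →
  1 ≤ q → 1 ≤ y → Nat.Coprime q a →
  (N : ℝ) ^ (-δ) * y ≤ (((Icc 1 y).filter (fun p => p.Prime ∧ p ∣ q)).card : ℝ) →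
  (((range N).filter (fun n => IsSquare (q * n + a))).card : ℝ) ≤
    C * (N : ℝ) ^ ε * (Real.sqrt N + Real.sqrt (Real.log q / y))

end Pool.Agent.Helper97.RD8
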