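import Pool.Agent.Helper97.RD8.Stmts11
import Pool.Agent.Helper41.RD8.SP2

/-! Project RD, T4: row FS4. -/

set_option autoImplicit false

namespace Pool.Agent.Helper97.RD8

open Finset Pool.Agent.Helper18.RD Pool.Agent.Helper19.RD
open Pool.Agent.Helper41.RD8 (alg not_dvd_d pm_sq pm_abs jac_sq abs_jac)

/-- a prime larger than `2 N` does not divide a difference of two points -/
theorem no_dvd (N p i j : ℕ) (hi : i < N) (hj : j < N) (hij : i ≠ j) (hp : 2 * N < p) :
    ¬ (p : ℤ) ∣ (i : ℤ) - j := by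
  intro h
  have h1 : ((i : ℤ) - j) ≠ 0 := by omega
  have h2 := Int.le_of_dvd (abs_pos.2 h1) ((dvd_abs _ _).2 h)
  rcases abs_cases ((i : ℤ) - j) with ⟨h3, -⟩ | ⟨h3, -⟩ <;> rw [h3] at h2 <;> omega

theorem st_FS4 (hS : ST_SQC) : ST_FS4 := by
  classical
  intro N q a S J e c d k w ξ ρ m x y p D hJ hx hy hxy hNQ hρ hξ hρJ hp hpN hsplit
  have hpp : p.Prime := Nat.prime_of_mem_primeFactors (mem_of_mem_erase hp)
  have hp2 : p ≠ 2 := ne_of_mem_erase hp
  have hlt : ∀ i ∈ J, i < N := fun i hi => mem_range.1 (D.dat.sub (hJ hi))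
  obtain ⟨f, lam, mu, hf, hlam, hmu, hchi⟩ := D.dat.chi p hp
  have hnd : ∀ i ∈ J, ∀ j ∈ J, i ≠ j → ¬ (p : ℤ) ∣ (i : ℤ) - j := fun i hi j hj hij =>
    no_dvd N p i j (hlt i hi) (hlt j hj) hij hpN
  have hndd : ∀ i ∈ J, ∀ j ∈ J, i ≠ j → ¬ (p : ℤ) ∣ d i j := fun i hi j hj hij =>
    not_dvd_d p hpp hp2 k _ _ _ D.dat.kap (D.dat.cd i (hJ hi) j (hJ hj) hij) (hnd i hi j hj hij)
  let F : ℕ → ℤ := fun i => if e i p = 1 ∧ i ≠ y then f i * jacobiSym (d i y) p else 0
  let G : ℕ → ℤ := fun j => if e j p = -1 ∧ j ≠ x then f j * jacobiSym (d x j) p else 0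
  let kk : ℤ := mu 1 * jacobiSym k p * jacobiSym (d x y) p
  have hF : ∀ n, |F n| ≤ 1 := by
    intro n
    simp only [F]
    split_ifs
    · rw [abs_mul]; exact mul_le_one₀ (pm_abs (hf n)) (abs_nonneg _) (abs_jac _ _)
    · simp
  have hG : ∀ n, |G n| ≤ 1 := by
    intro n
    simp only [G]
    split_ifs
    · rw [abs_mul]; exact mul_le_one₀ (pm_abs (hf n)) (abs_nonneg _) (abs_jac _ _)
    · simp
  have hkk : |kk| ≤ 1 := by
    simp only [kk]
    rw [abs_mul, abs_mul]
    exact mul_le_one₀ (mul_le_one₀ (pm_abs (hmu 1)) (abs_nonneg _) (abs_jac _ _))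
      (abs_nonneg _) (abs_jac _ _)
  let A : ℕ → ℕ → ℤ := fun i j => jacobiSym (df i j) p
  have hA0 : ∀ i, A i i = 0 := by
    intro i
    simp only [A, df, sub_self]
    exact jacobiSym.zero_left hpp.one_lt
  let g : ℕ × ℕ → ℤ := fun z => kk * (A z.1 z.2 * F z.1 * G z.2)
  have hg1 : ∀ z, -1 ≤ g z := by
    intro z
    have h0 : g z = kk * (A z.1 z.2 * F z.1 * G z.2) := rfl
    have h : |g z| ≤ 1 := by
      rw [h0, abs_mul kk, abs_mul (A z.1 z.2 * F z.1) (G z.2), abs_mul (A z.1 z.2) (F z.1)]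
      exact mul_le_one₀ hkk (by positivity) (mul_le_one₀ (mul_le_one₀ (abs_jac _ _)
        (abs_nonneg _) (hF _)) (abs_nonneg _) (hG _))
    exact (abs_le.1 h).1
  let Bad : Finset (ℕ × ℕ) := NQ J d x y ∪ {y} ×ˢ J ∪ J ×ˢ {x}
  have key : ∀ z ∈ J ×ˢ J, (if e z.1 p = 1 ∧ e z.2 p = -1 then (1 : ℤ) else 0) -
      2 * (if z ∈ Bad then 1 else 0) ≤ g z := by
    rintro ⟨i, j⟩ hz
    rw [mem_product] at hz
    obtain ⟨hi, hj⟩ := hz
    simp only at hi hj
    by_cases hs : e i p = 1 ∧ e j p = -1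
    · by_cases hb : (i, j) ∈ Bad
      · simp only [hs, hb, and_self, if_true]
        have := hg1 (i, j)
        linarith
      · simp only [hs, hb, and_self, if_true, if_false, mul_zero, sub_zero]
        have hij : i ≠ j := by
          intro h
          rw [h] at hs
          have := hs.1.symm.trans hs.2
          norm_num at this
        have hb1 : (i, j) ∉ NQ J d x y := fun h => hb (mem_union_left _ (mem_union_left _ h))
        have hb3 : i ≠ y := fun h => hb (mem_union_left _ (mem_union_right _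
          (mem_product.2 ⟨mem_singleton.2 h, hj⟩)))
        have hb4 : j ≠ x := fun h => hb (mem_union_right _
          (mem_product.2 ⟨hi, mem_singleton.2 h⟩))
        have hsqr : IsSquare (d i j * d i y * d x j * d x y) := by
          by_contra hns
          apply hb1
          simp only [NQ, mem_filter, mem_product]
          exact ⟨⟨hi, hj⟩, hij, hb3, fun h => hb4 h.symm, hns⟩
        have e1 := D.dat.cd i (hJ hi) j (hJ hj) hij
        have n1 := hndd i hi j hj hij
        have n2 := hndd i hi y hy hb3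
        have n3 := hndd x hx j hj hb4.symm
        have n5 := hndd x hx y hy hxy
        have hPr : Prime (p : ℤ) := Nat.prime_iff_prime_int.1 hpp
        have n4 : ¬ (p : ℤ) ∣ d i j * d i y * d x j * d x y := by
          intro h
          rcases hPr.dvd_or_dvd h with h | h
          · rcases hPr.dvd_or_dvd h with h | h
            · rcases hPr.dvd_or_dvd h with h | h
              · exact n1 h
              · exact n2 h
            · exact n3 h
          · exact n5 h
        have j1 := jac_sq p hpp _ hsqr n4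
        rw [jacobiSym.mul_left, jacobiSym.mul_left, jacobiSym.mul_left] at j1
        have j2 : jacobiSym (c i j) p * jacobiSym (d i j) p =
            jacobiSym k p * jacobiSym ((i : ℤ) - j) p := by
          rw [← jacobiSym.mul_left, e1, jacobiSym.mul_left]
        have hne : e i p ≠ e j p := by
          rw [hs.1, hs.2]; norm_num
        have j3 := (hchi i (hJ hi) j (hJ hj) hij).2 hne
        rw [hs.1] at j3
        have hF1 : F i = f i * jacobiSym (d i y) p := by
          simp only [F]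
          rw [if_pos ⟨hs.1, hb3⟩]
        have hG1 : G j = f j * jacobiSym (d x j) p := by
          simp only [G]
          rw [if_pos ⟨hs.2, hb4⟩]
        have j4 := alg (mu 1) (jacobiSym k p) (jacobiSym (d x y) p) (f i) (f j)
          (jacobiSym (d i y) p) (jacobiSym (d x j) p) (jacobiSym (d i j) p)
          (jacobiSym (c i j) p) (jacobiSym ((i : ℤ) - j) p) j3 j2 j1 (pm_sq (hmu 1))
          (pm_sq (hf i)) (pm_sq (hf j))
        have hgg : g (i, j) = mu 1 * jacobiSym k p * jacobiSym (d x y) p *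
            (jacobiSym ((i : ℤ) - j) p * (f i * jacobiSym (d i y) p) *
              (f j * jacobiSym (d x j) p)) := by
          simp only [g, A, df, kk]
          rw [hF1, hG1]
        rw [hgg, j4]
    · have hg0 : g (i, j) = 0 := by
        simp only [g]
        by_cases h1 : e i p = 1
        · have h2 : G j = 0 := by
            simp only [G]
            rw [if_neg]
            intro h
            exact hs ⟨h1, h.1⟩
          rw [h2]; ring
        · have h2 : F i = 0 := by
            simp only [F]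
            rw [if_neg]
            intro h
            exact h1 h.1
          rw [h2]; ring
      rw [hg0]
      simp only [hs, if_false, zero_sub]
      split_ifs <;> norm_num
  have hsum := sum_le_sum key
  rw [sum_sub_distrib, ← mul_sum] at hsum
  have hs1 : ∑ z ∈ J ×ˢ J, (if e z.1 p = 1 ∧ e z.2 p = -1 then (1 : ℤ) else 0) =
      (((Sg J e p 1).card * (Sg J e p (-1)).card : ℕ) : ℤ) := by
    rw [← card_product]
    have h1 : Sg J e p 1 ×ˢ Sg J e p (-1) =
        (J ×ˢ J).filter (fun z => e z.1 p = 1 ∧ e z.2 p = -1) := by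
      ext z
      simp only [Sg, mem_product, mem_filter]
      tauto
    rw [h1, card_filter]
    push_cast
    rfl
  have hs2 : ∑ z ∈ J ×ˢ J, (if z ∈ Bad then (1 : ℤ) else 0) ≤ (Bad.card : ℤ) := by
    have h1 : ∑ z ∈ J ×ˢ J, (if z ∈ Bad then (1 : ℤ) else 0) =
        (((J ×ˢ J).filter (fun z => z ∈ Bad)).card : ℤ) := by
      rw [card_filter]
      push_cast
      rfl
    rw [h1]
    have h2 : ((J ×ˢ J).filter (fun z => z ∈ Bad)).card ≤ Bad.card := by
      apply card_le_card
      intro z hz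
      exact (mem_filter.1 hz).2
    exact_mod_cast h2
  have hBad : Bad.card ≤ (NQ J d x y).card + J.card + J.card := by
    calc Bad.card ≤ (NQ J d x y ∪ {y} ×ˢ J).card + (J ×ˢ {x}).card := card_union_le _ _
      _ ≤ (NQ J d x y).card + ({y} ×ˢ J).card + (J ×ˢ {x}).card := by
          gcongr; exact card_union_le _ _
      _ = _ := by
          rw [card_product, card_product, card_singleton, card_singleton, one_mul, mul_one]
  let T : ℤ := ∑ i ∈ J, ∑ j ∈ J, A i j * F i * G j
  have hT : ∑ z ∈ J ×ˢ J, g z = kk * T := by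
    simp only [g, T]
    rw [← mul_sum, sum_product]
  have hsq := hS J A F G hF hG hA0
  have hcyc : ∀ t, cyc A t = jacobiSym (cyc df t) p := by
    intro t
    simp only [cyc, A]
    rw [jacobiSym.mul_left, jacobiSym.mul_left, jacobiSym.mul_left]
  have hsq2 : (T : ℝ) ^ 4 ≤ (J.card : ℝ) ^ 4 * ∑ t ∈ T4 J, (jacobiSym (cyc df t) p : ℝ) := by
    have h1 : T ^ 4 ≤ (J.card : ℤ) ^ 4 * ∑ t ∈ T4 J, jacobiSym (cyc df t) p := by
      rw [← sum_congr rfl fun t _ => hcyc t]
      exact hsq
    exact_mod_cast h1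
  rw [hs1, hT] at hsum
  have hsum2 : ((Sg J e p 1).card : ℝ) * ((Sg J e p (-1)).card : ℝ) - 2 * (Bad.card : ℝ) ≤
      (kk : ℝ) * T := by
    have h1 : (((Sg J e p 1).card * (Sg J e p (-1)).card : ℕ) : ℤ) - 2 * (Bad.card : ℤ) ≤
        kk * T := by linarith
    exact_mod_cast h1
  have hJ1 : 0 < (J.card : ℝ) := by
    have : 0 < J.card := card_pos.2 ⟨x, hx⟩
    exact_mod_cast this
  have hBad2 : (Bad.card : ℝ) ≤ ξ * (J.card : ℝ) ^ 2 + 2 * J.card := by
    have h1 : (Bad.card : ℝ) ≤ ((NQ J d x y).card : ℝ) + J.card + J.card := by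
      exact_mod_cast hBad
    linarith
  have hlow : ρ / 2 * (J.card : ℝ) ^ 2 ≤ |(T : ℝ)| := by
    have h1 : (kk : ℝ) * T ≤ |(T : ℝ)| := by
      have h2 : |(kk : ℝ)| ≤ 1 := by exact_mod_cast hkk
      calc (kk : ℝ) * T ≤ |(kk : ℝ) * T| := le_abs_self _
        _ = |(kk : ℝ)| * |(T : ℝ)| := abs_mul _ _
        _ ≤ 1 * |(T : ℝ)| := mul_le_mul_of_nonneg_right h2 (abs_nonneg _)
        _ = _ := one_mul _
    have h3 : 100 * (J.card : ℝ) ≤ ρ * (J.card : ℝ) ^ 2 := by nlinarith
    have h4 : 16 * ξ * (J.card : ℝ) ^ 2 ≤ ρ * (J.card : ℝ) ^ 2 :=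
      mul_le_mul_of_nonneg_right hξ (sq_nonneg _)
    linarith
  have h5 : (ρ / 2 * (J.card : ℝ) ^ 2) ^ 4 ≤ (T : ℝ) ^ 4 := by
    have h6 := pow_le_pow_left₀ (by positivity) hlow 4
    have h7 : |(T : ℝ)| ^ 4 = (T : ℝ) ^ 4 := by
      rw [show (4 : ℕ) = 2 * 2 by norm_num, pow_mul, sq_abs, ← pow_mul]
    rwa [h7] at h6
  have h8 : (J.card : ℝ) ^ 4 * (ρ ^ 4 / 16 * (J.card : ℝ) ^ 4) ≤
      (J.card : ℝ) ^ 4 * ∑ t ∈ T4 J, (jacobiSym (cyc df t) p : ℝ) := by
    refine le_trans (le_of_eq ?_) (h5.trans hsq2)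
    ring
  exact le_of_mul_le_mul_left h8 (by positivity)

end Pool.Agent.Helper97.RD8
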