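import Pool.Agent.Helper97.RD8.Stmts11

/-! Project RD, T4: row SPB. -/

set_option autoImplicit false

namespace Pool.Agent.Helper97.RD8

open Finset Pool.Agent.Helper18.RD Pool.Agent.Helper19.RD

theorem cyc_df_ne (N : ℕ) (J : Finset ℕ) (hJ : J ⊆ range N) (t : ℕ × ℕ × ℕ × ℕ)
    (ht : t ∈ T4 J) : cyc df t ≠ 0 ∧ |cyc df t| ≤ ((N ^ 4 : ℕ) : ℤ) := by
  rw [T4, mem_filter, mem_product, mem_product, mem_product] at ht
  obtain ⟨⟨h1, h2, h3, h4⟩, h13, h14, h23, h24⟩ := ht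
  have b1 := mem_range.1 (hJ h1)
  have b2 := mem_range.1 (hJ h2)
  have b3 := mem_range.1 (hJ h3)
  have b4 := mem_range.1 (hJ h4)
  have hab : ∀ i j : ℕ, i < N → j < N → |df i j| ≤ (N : ℤ) := by
    intro i j hi hj
    unfold df
    rw [abs_le]
    constructor <;> omega
  have hne : ∀ i j : ℕ, i ≠ j → df i j ≠ 0 := by
    intro i j hij
    unfold df
    omega
  constructor
  · unfold cyc
    exact mul_ne_zero (mul_ne_zero (mul_ne_zero (hne _ _ h13) (hne _ _ h14)) (hne _ _ h23))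
      (hne _ _ h24)
  · unfold cyc
    rw [abs_mul, abs_mul, abs_mul]
    have hN0 : (0 : ℤ) ≤ N := by positivity
    calc |df t.1 t.2.2.1| * |df t.1 t.2.2.2| * |df t.2.1 t.2.2.1| * |df t.2.1 t.2.2.2|
        ≤ (N : ℤ) * N * N * N := by
          gcongr
          · exact hab _ _ b1 b3
          · exact hab _ _ b1 b4
          · exact hab _ _ b2 b3
          · exact hab _ _ b2 b4
      _ = ((N ^ 4 : ℕ) : ℤ) := by push_cast; ring

theorem jac_prod {K : ℕ} (a : ℤ) (t : Fin K → ℕ) (ht : ∀ i, t i ≠ 0) :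
    jacobiSym a (∏ i, t i) = ∏ i, jacobiSym a (t i) := by
  classical
  have h : ∀ s : Finset (Fin K), jacobiSym a (∏ i ∈ s, t i) = ∏ i ∈ s, jacobiSym a (t i) := by
    intro s
    induction s using Finset.induction_on with
    | empty => simp
    | insert i s hi ih =>
      rw [prod_insert hi, prod_insert hi, jacobiSym.mul_right' a (ht i)
        (prod_ne_zero_iff.2 fun j _ => ht j), ih]
  exact h univ

theorem st_SPB (hW : ST_WL1) (hE : ST_END2) : ST_SPB := by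
  classical
  obtain ⟨C, hC, hE⟩ := hE
  refine ⟨10 ^ 10 * (10 * C + 8), by positivity, ?_⟩
  intro N z x J U β hN hz hx hJ hNJ hβ hU hlow
  have hNr : (1 : ℝ) ≤ N := by exact_mod_cast hN
  have hxr : (1 : ℝ) ≤ x := by exact_mod_cast hx
  have hlogx : 0 ≤ Real.log x := Real.log_nonneg hxr
  have hN20 : 0 < (N : ℝ) ^ (-(1 / 20) : ℝ) := Real.rpow_pos_of_pos (by linarith) _
  rcases U.eq_empty_or_nonempty with hU0 | ⟨p0, hp0⟩
  · rw [hU0]
    simp only [card_empty, Nat.cast_zero, zero_div]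
    rw [zero_pow (by norm_num), mul_zero]
    positivity
  have hJ0 : 0 < J.card := by
    by_contra h
    have h0 : J.card = 0 := by omega
    rw [h0] at hNJ
    omega
  obtain ⟨j, hj⟩ : ∃ j : ℝ, j = (J.card : ℝ) := ⟨_, rfl⟩
  have hj0 : 0 < j := by rw [hj]; exact_mod_cast hJ0
  rw [← hj] at hlow
  -- the number of 4-cycles
  obtain ⟨τ, hτ⟩ : ∃ τ : ℝ, τ = ((T4 J).card : ℝ) := ⟨_, rfl⟩
  have hτ1 : τ ≤ j ^ 4 := by
    rw [hτ, hj]
    have h1 : (T4 J).card ≤ J.card ^ 4 := by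
      rw [T4]
      refine (card_filter_le _ _).trans (le_of_eq ?_)
      rw [card_product, card_product, card_product]
      ring
    exact_mod_cast h1
  have hτ0 : 0 < τ := by
    have h1 := hlow p0 hp0
    have h2 : ∑ t ∈ T4 J, (jacobiSym (cyc df t) p0 : ℝ) ≤ τ := by
      rw [hτ]
      calc ∑ t ∈ T4 J, (jacobiSym (cyc df t) p0 : ℝ) ≤ ∑ _t ∈ T4 J, (1 : ℝ) := by
            refine sum_le_sum fun t _ => ?_
            rcases jacobiSym.trichotomy (cyc df t) p0 with h | h | h <;> rw [h] <;> norm_num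
        _ = _ := by simp
    have h3 : 0 < β * j ^ 4 := by positivity
    linarith
  -- the large sieve
  have hUU : ∀ p ∈ U, p.Prime ∧ p ≠ 2 ∧ z ≤ p ∧ p ≤ x := hU
  have hw := hW (ℕ × ℕ × ℕ × ℕ) (T4 J) (fun t => cyc df t) (N ^ 4) 10 z x U (by norm_num)
    (by omega) hx (fun t ht => cyc_df_ne N J hJ t ht) hUU
  obtain ⟨L, hL⟩ : ∃ L : ℝ, L = ∑ t ∈ Fintype.piFinset (fun _ : Fin 10 => U),
      (∏ i, 1 / (t i : ℝ)) * (∑ a ∈ T4 J, (jacobiSym (cyc df a) (∏ i, t i) : ℝ)) ^ 2 := ⟨_, rfl⟩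
  rw [← hL] at hw
  -- the number of square pairs
  have hM : ((((T4 J) ×ˢ (T4 J)).filter (fun x => IsSquare (cyc df x.1 * cyc df x.2))).card : ℝ) ≤
      C * j ^ 8 * (N : ℝ) ^ (-(1 / 20) : ℝ) := by
    have h1 := hE N J df (fun _ _ => 1) 1 hN hJ (Or.inl rfl) hNJ
      (fun n _ n' _ _ => by simp [df])
    rw [← hj] at h1
    refine le_trans ?_ h1
    have h2 : (((T4 J) ×ˢ (T4 J)).filter (fun x => IsSquare (cyc df x.1 * cyc df x.2))) ⊆
        MM J df (fun _ _ => 1) := by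
      intro t ht
      rw [mem_filter] at ht
      rw [MM, mem_filter]
      refine ⟨ht.1, ht.2, ?_⟩
      refine ⟨1, ?_⟩
      simp [cyc]
    exact_mod_cast card_le_card h2
  have hz8 : 8 * ((N ^ 4 : ℕ) : ℝ) ^ 2 / (z : ℝ) ^ 10 ≤ 8 * (N : ℝ) ^ (-(1 / 20) : ℝ) := by
    have hzN : (N : ℝ) ≤ z := by exact_mod_cast hz
    have h1 : (N : ℝ) ^ 10 ≤ (z : ℝ) ^ 10 := pow_le_pow_left₀ (by linarith) hzN 10
    have h2 : 8 * ((N ^ 4 : ℕ) : ℝ) ^ 2 / (z : ℝ) ^ 10 ≤ 8 * ((N ^ 4 : ℕ) : ℝ) ^ 2 / (N : ℝ) ^ 10 :=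
      div_le_div_of_nonneg_left (by positivity) (by positivity) h1
    refine h2.trans ?_
    have h3 : 8 * ((N ^ 4 : ℕ) : ℝ) ^ 2 / (N : ℝ) ^ 10 = 8 * (N : ℝ) ^ (-2 : ℝ) := by
      rw [Real.rpow_neg (by linarith)]
      push_cast
      rw [show ((2 : ℝ)) = ((2 : ℕ) : ℝ) by norm_num, Real.rpow_natCast]
      field_simp
    rw [h3]
    refine mul_le_mul_of_nonneg_left ?_ (by norm_num)
    exact Real.rpow_le_rpow_of_exponent_le hNr (by norm_num)
  have hup : L ≤ 10 ^ 10 * (10 * C + 8) * (1 + Real.log x) * (N : ℝ) ^ (-(1 / 20) : ℝ) * j ^ 8 := by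
    refine hw.trans ?_
    have e1 : τ ^ 2 ≤ j ^ 8 := by
      calc τ ^ 2 ≤ (j ^ 4) ^ 2 := pow_le_pow_left₀ hτ0.le hτ1 2
        _ = j ^ 8 := by ring
    rw [← hτ]
    push_cast
    push_cast at hz8 hM
    obtain ⟨n, hn⟩ : ∃ n : ℝ, n = (N : ℝ) ^ (-(1 / 20) : ℝ) := ⟨_, rfl⟩
    rw [← hn] at hM hz8 hN20 ⊢
    have a1 : (1 + 10 * Real.log x) *
        ((((T4 J) ×ˢ (T4 J)).filter (fun x => IsSquare (cyc df x.1 * cyc df x.2))).card : ℝ) ≤
        10 * (1 + Real.log x) * (C * j ^ 8 * n) := by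
      refine mul_le_mul (by linarith) hM (by positivity) (by positivity)
    have a2 : 8 * ((N : ℝ) ^ 4) ^ 2 / (z : ℝ) ^ 10 * τ ^ 2 ≤ 8 * n * j ^ 8 :=
      mul_le_mul hz8 e1 (by positivity) (by positivity)
    have a3 : 8 * n * j ^ 8 ≤ 8 * n * j ^ 8 * (1 + Real.log x) := by
      have : 0 ≤ 8 * n * j ^ 8 := by positivity
      nlinarith
    have a4 : (10 : ℝ) ^ 10 * ((1 + 10 * Real.log x) *
        ((((T4 J) ×ˢ (T4 J)).filter (fun x => IsSquare (cyc df x.1 * cyc df x.2))).card : ℝ) +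
        8 * ((N : ℝ) ^ 4) ^ 2 / (z : ℝ) ^ 10 * τ ^ 2) ≤
        10 ^ 10 * (10 * (1 + Real.log x) * (C * j ^ 8 * n) + 8 * n * j ^ 8 * (1 + Real.log x)) :=
      mul_le_mul_of_nonneg_left (by linarith) (by positivity)
    refine a4.trans (le_of_eq ?_)
    ring
  -- the lower bound
  obtain ⟨V, hV⟩ : ∃ V : ℝ, V = VV U := ⟨_, rfl⟩
  have hp1 : ∀ p ∈ U, (1 : ℝ) ≤ p := fun p hp => by exact_mod_cast (hU p hp).1.one_lt.le
  have hV0 : 0 < V := by
    rw [hV, VV]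
    exact sum_pos (fun p hp => by have := hp1 p hp; positivity) ⟨p0, hp0⟩
  have hVU : (U.card : ℝ) / x ≤ V := by
    rw [hV, VV, div_eq_mul_inv, ← nsmul_eq_mul, ← sum_const]
    refine sum_le_sum fun p hp => ?_
    rw [one_div]
    exact inv_anti₀ (by have := hp1 p hp; linarith) (by exact_mod_cast (hU p hp).2.2.2)
  let X : ℕ × ℕ × ℕ × ℕ → ℝ := fun a => ∑ p ∈ U, (1 / (p : ℝ)) * (jacobiSym (cyc df a) p : ℝ)
  have hX1 : V * (β * j ^ 4) ≤ ∑ a ∈ T4 J, X a := by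
    simp only [X]
    rw [sum_comm, hV, VV, sum_mul]
    refine sum_le_sum fun p hp => ?_
    rw [← mul_sum]
    exact mul_le_mul_of_nonneg_left (hlow p hp) (by positivity)
  have hX2 : V * (β * j ^ 4) ≤ ∑ a ∈ T4 J, |X a| :=
    hX1.trans (sum_le_sum fun a _ => le_abs_self _)
  have hX3 : (V * (β * j ^ 4)) ^ 10 / τ ^ 9 ≤ ∑ a ∈ T4 J, X a ^ 10 := by
    have h1 := pow_sum_div_card_le_sum_pow (s := T4 J) (f := fun a => |X a|)
      (fun a _ => abs_nonneg _) 9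
    rw [← hτ] at h1
    have h2 : ∑ a ∈ T4 J, |X a| ^ (9 + 1) = ∑ a ∈ T4 J, X a ^ 10 := by
      refine sum_congr rfl fun a _ => ?_
      rw [show (9 + 1 : ℕ) = 2 * 5 by norm_num, pow_mul, sq_abs, ← pow_mul]
    rw [h2] at h1
    refine le_trans ?_ h1
    exact div_le_div_of_nonneg_right (pow_le_pow_left₀ (by positivity) hX2 10) (by positivity)
  have hX4 : V ^ 10 * β ^ 10 * j ^ 4 ≤ ∑ a ∈ T4 J, X a ^ 10 := by
    refine le_trans ?_ hX3
    rw [le_div_iff₀ (by positivity)]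
    have h1 : τ ^ 9 ≤ (j ^ 4) ^ 9 := pow_le_pow_left₀ hτ0.le hτ1 9
    calc V ^ 10 * β ^ 10 * j ^ 4 * τ ^ 9 ≤ V ^ 10 * β ^ 10 * j ^ 4 * (j ^ 4) ^ 9 :=
          mul_le_mul_of_nonneg_left h1 (by positivity)
      _ = (V * (β * j ^ 4)) ^ 10 := by ring
  -- expansion of the tenth power
  obtain ⟨B, hB⟩ : ∃ B : (Fin 10 → ℕ) → ℝ, B = fun t =>
      ∑ a ∈ T4 J, (jacobiSym (cyc df a) (∏ i, t i) : ℝ) := ⟨_, rfl⟩
  obtain ⟨w, hwd⟩ : ∃ w : (Fin 10 → ℕ) → ℝ, w = fun t => ∏ i, 1 / (t i : ℝ) := ⟨_, rfl⟩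
  have hX5 : ∑ a ∈ T4 J, X a ^ 10 = ∑ t ∈ Fintype.piFinset (fun _ : Fin 10 => U), w t * B t := by
    have h1 : ∀ a ∈ T4 J, X a ^ 10 = ∑ t ∈ Fintype.piFinset (fun _ : Fin 10 => U),
        w t * (jacobiSym (cyc df a) (∏ i, t i) : ℝ) := by
      intro a _
      have h2 : X a ^ 10 = ∏ _i : Fin 10, X a := by
        rw [prod_const, card_univ, Fintype.card_fin]
      rw [h2]
      simp only [X]
      rw [prod_univ_sum]
      refine sum_congr rfl fun t ht => ?_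
      rw [Fintype.mem_piFinset] at ht
      rw [jac_prod (cyc df a) t (fun i => (hU _ (ht i)).1.ne_zero), prod_mul_distrib, hwd]
      push_cast
      rfl
    rw [sum_congr rfl h1, sum_comm]
    refine sum_congr rfl fun t _ => ?_
    rw [hB, mul_sum]
  have hw0 : ∀ t, 0 ≤ w t := fun t => by
    rw [hwd]
    exact prod_nonneg fun i _ => by positivity
  have hwV : ∑ t ∈ Fintype.piFinset (fun _ : Fin 10 => U), w t = V ^ 10 := by
    rw [hwd, hV, VV]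
    have h1 := (prod_univ_sum (fun _ : Fin 10 => U) (fun _ p => (1 : ℝ) / (p : ℝ))).symm
    rw [h1, prod_const, card_univ, Fintype.card_fin]
  have hL2 : L = ∑ t ∈ Fintype.piFinset (fun _ : Fin 10 => U), w t * B t ^ 2 := by
    rw [hL, hwd, hB]
  have hCS : (∑ t ∈ Fintype.piFinset (fun _ : Fin 10 => U), w t * B t) ^ 2 ≤ V ^ 10 * L := by
    rw [hL2, ← hwV]
    exact sum_sq_le_sum_mul_sum_of_sq_le_mul _ (fun t _ => hw0 t)
      (fun t _ => mul_nonneg (hw0 t) (sq_nonneg _)) (fun t _ => le_of_eq (by ring))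
  rw [← hX5] at hCS
  have h6 : (V ^ 10 * β ^ 10 * j ^ 4) ^ 2 ≤ V ^ 10 * L :=
    (pow_le_pow_left₀ (by positivity) hX4 2).trans hCS
  have h7 : V ^ 10 * (V ^ 10 * β ^ 20 * j ^ 8) ≤ V ^ 10 * L := by
    refine le_trans (le_of_eq ?_) h6
    ring
  have h8 : V ^ 10 * β ^ 20 * j ^ 8 ≤ L := le_of_mul_le_mul_left h7 (by positivity)
  have h9 : (V ^ 10 * β ^ 20) * j ^ 8 ≤ (10 ^ 10 * (10 * C + 8) * (1 + Real.log x) *
      (N : ℝ) ^ (-(1 / 20) : ℝ)) * j ^ 8 := h8.trans hup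
  have h10 : V ^ 10 * β ^ 20 ≤ 10 ^ 10 * (10 * C + 8) * (1 + Real.log x) *
      (N : ℝ) ^ (-(1 / 20) : ℝ) := le_of_mul_le_mul_right h9 (by positivity)
  refine le_trans ?_ h10
  rw [mul_comm]
  exact mul_le_mul_of_nonneg_right (pow_le_pow_left₀ (by positivity) hVU 10) (by positivity)

end Pool.Agent.Helper97.RD8
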