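import Pool.Agent.Helper97.RD8.Stmts11

/-! Project RD, T4: rows SQC and PIU. -/

set_option autoImplicit false

namespace Pool.Agent.Helper97.RD8

open Finset Pool.Agent.Helper18.RD Pool.Agent.Helper19.RD

theorem st_SQC : ST_SQC := by
  classical
  intro J A F G hF hG hA
  have hF2 : ∀ n, F n ^ 2 ≤ 1 := fun n => by
    have := hF n
    have h2 := abs_le.1 this
    nlinarith [h2.1, h2.2]
  -- first step
  have h1 : (∑ i ∈ J, ∑ j ∈ J, A i j * F i * G j) ^ 2 ≤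
      (J.card : ℤ) * ∑ i ∈ J, (∑ j ∈ J, A i j * G j) ^ 2 := by
    have e1 : ∑ i ∈ J, ∑ j ∈ J, A i j * F i * G j = ∑ i ∈ J, F i * ∑ j ∈ J, A i j * G j := by
      refine sum_congr rfl fun i _ => ?_
      rw [mul_sum]
      exact sum_congr rfl fun j _ => by ring
    rw [e1]
    refine (sum_mul_sq_le_sq_mul_sq J _ _).trans ?_
    refine mul_le_mul_of_nonneg_right ?_ (sum_nonneg fun i _ => sq_nonneg _)
    calc ∑ i ∈ J, F i ^ 2 ≤ ∑ _i ∈ J, (1 : ℤ) := sum_le_sum fun i _ => hF2 i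
      _ = (J.card : ℤ) := by simp
  -- expansion
  have h2 : ∑ i ∈ J, (∑ j ∈ J, A i j * G j) ^ 2 =
      ∑ x ∈ J ×ˢ J, G x.1 * G x.2 * ∑ i ∈ J, A i x.1 * A i x.2 := by
    have e1 : ∀ i, (∑ j ∈ J, A i j * G j) ^ 2 =
        ∑ x ∈ J ×ˢ J, G x.1 * G x.2 * (A i x.1 * A i x.2) := by
      intro i
      rw [sq, sum_mul_sum, sum_product]
      exact sum_congr rfl fun j _ => sum_congr rfl fun j' _ => by ring
    rw [sum_congr rfl fun i _ => e1 i, sum_comm]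
    exact sum_congr rfl fun x _ => by rw [mul_sum]
  have h3 : (∑ i ∈ J, (∑ j ∈ J, A i j * G j) ^ 2) ^ 2 ≤
      (J.card : ℤ) ^ 2 * ∑ x ∈ J ×ˢ J, (∑ i ∈ J, A i x.1 * A i x.2) ^ 2 := by
    rw [h2]
    refine (sum_mul_sq_le_sq_mul_sq (J ×ˢ J) _ _).trans ?_
    refine mul_le_mul_of_nonneg_right ?_ (sum_nonneg fun i _ => sq_nonneg _)
    calc ∑ x ∈ J ×ˢ J, (G x.1 * G x.2) ^ 2 ≤ ∑ _x ∈ J ×ˢ J, (1 : ℤ) := by
          refine sum_le_sum fun x _ => ?_
          have a1 : |G x.1 * G x.2| ≤ 1 := by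
            rw [abs_mul]
            exact mul_le_one₀ (hG _) (abs_nonneg _) (hG _)
          have a2 := abs_le.1 a1
          nlinarith [a2.1, a2.2]
      _ = (J.card : ℤ) ^ 2 := by
          simp [card_product, sq]
  have h4 : ∑ x ∈ J ×ˢ J, (∑ i ∈ J, A i x.1 * A i x.2) ^ 2 = ∑ t ∈ T4 J, cyc A t := by
    have e1 : ∑ t ∈ T4 J, cyc A t = ∑ t ∈ J ×ˢ J ×ˢ J ×ˢ J, cyc A t := by
      rw [T4]
      refine sum_subset (filter_subset _ _) ?_
      intro t ht hn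
      rw [mem_filter, not_and] at hn
      have hn' := hn ht
      unfold cyc
      by_cases a1 : t.1 = t.2.2.1
      · rw [← a1, hA]; ring
      by_cases a2 : t.1 = t.2.2.2
      · rw [← a2, hA]; ring
      by_cases a3 : t.2.1 = t.2.2.1
      · rw [← a3, hA]; ring
      by_cases a4 : t.2.1 = t.2.2.2
      · rw [← a4, hA]; ring
      exact absurd ⟨a1, a2, a3, a4⟩ hn'
    rw [e1, sum_product, sum_product]
    have e2 : ∀ j j', (∑ i ∈ J, A i j * A i j') ^ 2 =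
        ∑ i ∈ J, ∑ i' ∈ J, cyc A (i, i', j, j') := by
      intro j j'
      rw [sq, sum_mul_sum]
      refine sum_congr rfl fun i _ => sum_congr rfl fun i' _ => ?_
      unfold cyc
      ring
    simp only [e2]
    have e3 : ∀ i : ℕ, ∑ y ∈ J ×ˢ J ×ˢ J, cyc A (i, y) =
        ∑ i' ∈ J, ∑ j ∈ J, ∑ j' ∈ J, cyc A (i, i', j, j') := by
      intro i
      rw [sum_product]
      exact sum_congr rfl fun i' _ => by rw [sum_product]
    simp only [e3]
    calc ∑ j ∈ J, ∑ j' ∈ J, ∑ i ∈ J, ∑ i' ∈ J, cyc A (i, i', j, j')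
        = ∑ j ∈ J, ∑ i ∈ J, ∑ j' ∈ J, ∑ i' ∈ J, cyc A (i, i', j, j') :=
          sum_congr rfl fun j _ => sum_comm
      _ = ∑ i ∈ J, ∑ j ∈ J, ∑ j' ∈ J, ∑ i' ∈ J, cyc A (i, i', j, j') := sum_comm
      _ = ∑ i ∈ J, ∑ j ∈ J, ∑ i' ∈ J, ∑ j' ∈ J, cyc A (i, i', j, j') :=
          sum_congr rfl fun i _ => sum_congr rfl fun j _ => sum_comm
      _ = ∑ i ∈ J, ∑ i' ∈ J, ∑ j ∈ J, ∑ j' ∈ J, cyc A (i, i', j, j') :=
          sum_congr rfl fun i _ => sum_comm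
  have h5 : 0 ≤ ∑ i ∈ J, (∑ j ∈ J, A i j * G j) ^ 2 := sum_nonneg fun i _ => sq_nonneg _
  calc (∑ i ∈ J, ∑ j ∈ J, A i j * F i * G j) ^ 4
      = ((∑ i ∈ J, ∑ j ∈ J, A i j * F i * G j) ^ 2) ^ 2 := by ring
    _ ≤ ((J.card : ℤ) * ∑ i ∈ J, (∑ j ∈ J, A i j * G j) ^ 2) ^ 2 :=
        pow_le_pow_left₀ (sq_nonneg _) h1 2
    _ = (J.card : ℤ) ^ 2 * (∑ i ∈ J, (∑ j ∈ J, A i j * G j) ^ 2) ^ 2 := by ring
    _ ≤ (J.card : ℤ) ^ 2 * ((J.card : ℤ) ^ 2 *
        ∑ x ∈ J ×ˢ J, (∑ i ∈ J, A i x.1 * A i x.2) ^ 2) :=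
        mul_le_mul_of_nonneg_left h3 (by positivity)
    _ = (J.card : ℤ) ^ 4 * ∑ t ∈ T4 J, cyc A t := by rw [h4]; ring

theorem st_PIU : ST_PIU := by
  refine ⟨10, by norm_num, ?_⟩
  intro y hy
  have hy1 : (1 : ℝ) < y := by exact_mod_cast hy
  have h := Chebyshev.pi_le_log4_mul_div hy1
  rw [Nat.floor_natCast] at h
  have hl : 0 < Real.log y := Real.log_pos hy1
  have h1 : Real.log (Real.sqrt y) = Real.log y / 2 := by
    rw [Real.log_sqrt (by linarith)]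
  rw [h1] at h
  have h4 : Real.log 4 ≤ 2 := by
    have e1 : Real.log 4 = 2 * Real.log 2 := by
      rw [show (4 : ℝ) = 2 ^ 2 by norm_num, Real.log_pow]; norm_num
    have := Real.log_two_lt_d9
    rw [e1]; linarith
  have h2 : Real.sqrt y * Real.log y ≤ 2 * y := by
    have e1 : Real.log y = 2 * Real.log (Real.sqrt y) := by rw [h1]; ring
    have hs : 0 < Real.sqrt y := Real.sqrt_pos.2 (by linarith)
    have e2 : Real.log (Real.sqrt y) ≤ Real.sqrt y := by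
      have := Real.log_le_sub_one_of_pos hs
      linarith
    have e3 : Real.sqrt y * Real.sqrt y = y := Real.mul_self_sqrt (by linarith)
    rw [e1]
    nlinarith
  calc (Nat.primeCounting y : ℝ) * Real.log y
      ≤ (Real.log 4 * y / (Real.log y / 2) + Real.sqrt y) * Real.log y :=
        mul_le_mul_of_nonneg_right h hl.le
    _ = 2 * Real.log 4 * y + Real.sqrt y * Real.log y := by field_simp
    _ ≤ 10 * y := by nlinarith

end Pool.Agent.Helper97.RD8
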