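import Pool.Agent.Helper19.RD.Stmts9

/-! Project RD (rd8), row CYB: cycles of pairwise close points. -/

set_option autoImplicit false

namespace Pool.Agent.Helper97.RD8

open Finset Pool.Agent.Helper18.RD Pool.Agent.Helper19.RD

theorem st_CYB : ST_CYB := by
  intro N q S J U e c d k w η hD hJ hU hcl t ht
  obtain ⟨n1, n2, n3, n4⟩ := t
  rw [T4, mem_filter, mem_product, mem_product, mem_product] at ht
  obtain ⟨⟨h1, h2, h3, h4⟩, h13, h14, h23, h24⟩ := ht
  simp only at h1 h2 h3 h4 h13 h14 h23 h24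
  have key : ∀ p ∈ U, e n1 p = e n2 p → e n1 p = e n3 p → e n1 p = e n4 p →
      jacobiSym (cyc d (n1, n2, n3, n4)) p = 1 := by
    intro p hp e12 e13 e14
    obtain ⟨f, lam, mu, hf, hlam, -, hch⟩ := hD.chi p (hU hp)
    have a13 := (hch n1 (hJ h1) n3 (hJ h3) h13).1 e13
    have a14 := (hch n1 (hJ h1) n4 (hJ h4) h14).1 e14
    have a23 := (hch n2 (hJ h2) n3 (hJ h3) h23).1 (e12.symm.trans e13)
    have a24 := (hch n2 (hJ h2) n4 (hJ h4) h24).1 (e12.symm.trans e14)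
    have hcyc : cyc d (n1, n2, n3, n4) = d n1 n3 * d n1 n4 * d n2 n3 * d n2 n4 := rfl
    rw [hcyc, jacobiSym.mul_left, jacobiSym.mul_left, jacobiSym.mul_left, a13, a14, a23, a24,
      ← e12]
    rcases hf n1 with g1 | g1 <;> rcases hf n2 with g2 | g2 <;> rcases hf n3 with g3 | g3 <;>
      rcases hf n4 with g4 | g4 <;> rcases hlam (e n1 p) with g5 | g5 <;>
      rw [g1, g2, g3, g4, g5] <;> norm_num
  have hsub : U.filter (fun p => jacobiSym (cyc d (n1, n2, n3, n4)) p ≠ 1) ⊆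
      (U.filter (fun p => e n1 p ≠ e n2 p) ∪ U.filter (fun p => e n1 p ≠ e n3 p)) ∪
        U.filter (fun p => e n1 p ≠ e n4 p) := by
    intro p hp
    rw [mem_filter] at hp
    obtain ⟨hpU, hne⟩ := hp
    by_cases e12 : e n1 p = e n2 p
    · by_cases e13 : e n1 p = e n3 p
      · by_cases e14 : e n1 p = e n4 p
        · exact absurd (key p hpU e12 e13 e14) hne
        · exact mem_union_right _ (mem_filter.2 ⟨hpU, e14⟩)
      · exact mem_union_left _ (mem_union_right _ (mem_filter.2 ⟨hpU, e13⟩))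
    · exact mem_union_left _ (mem_union_left _ (mem_filter.2 ⟨hpU, e12⟩))
  have hun : ∀ A B : Finset ℕ, ∑ p ∈ A ∪ B, (1 : ℝ) / p ≤
      ∑ p ∈ A, (1 : ℝ) / p + ∑ p ∈ B, (1 : ℝ) / p := by
    intro A B
    rw [← sum_union_inter]
    have : 0 ≤ ∑ p ∈ A ∩ B, (1 : ℝ) / p := sum_nonneg fun p _ => by positivity
    linarith
  have b2 := hcl n1 h1 n2 h2
  have b3 := hcl n1 h1 n3 h3
  have b4 := hcl n1 h1 n4 h4
  unfold Dl at b2 b3 b4
  calc ∑ p ∈ U.filter (fun p => jacobiSym (cyc d (n1, n2, n3, n4)) p ≠ 1), (1 : ℝ) / p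
      ≤ ∑ p ∈ (U.filter (fun p => e n1 p ≠ e n2 p) ∪ U.filter (fun p => e n1 p ≠ e n3 p)) ∪
        U.filter (fun p => e n1 p ≠ e n4 p), (1 : ℝ) / p :=
        sum_le_sum_of_subset_of_nonneg hsub fun p _ _ => by positivity
    _ ≤ (∑ p ∈ U.filter (fun p => e n1 p ≠ e n2 p), (1 : ℝ) / p +
        ∑ p ∈ U.filter (fun p => e n1 p ≠ e n3 p), (1 : ℝ) / p) +
        ∑ p ∈ U.filter (fun p => e n1 p ≠ e n4 p), (1 : ℝ) / p :=
        (hun _ _).trans (add_le_add (hun _ _) le_rfl)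
    _ ≤ 6 * η * VV U := by linarith

end Pool.Agent.Helper97.RD8
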