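import Pool.Agent.Helper19.RD.Stmts9

/-! Project RD (rd8), row OSF: nonsquares with mostly symbol `1` have a large odd squarefree
part. -/

set_option autoImplicit false

namespace Pool.Agent.Helper97.RD8

open Finset Pool.Agent.Helper18.RD Pool.Agent.Helper19.RD

theorem osf_ge (a b : ℕ) (hb : 1 ≤ b) (ha : Squarefree a) (Y : ℤ) (hY : Y.natAbs = b ^ 2 * a) :
    a ≤ 2 * osf Y := by
  have ha0 : a ≠ 0 := ha.ne_zero
  have hb0 : b ≠ 0 := by omega
  have hsub : a.primeFactors ⊆ insert 2 (Y.natAbs.primeFactors.filter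
      (fun p => p ≠ 2 ∧ Odd (Y.natAbs.factorization p))) := by
    intro p hp
    have hpp : p.Prime := Nat.prime_of_mem_primeFactors hp
    have hpa : p ∣ a := Nat.dvd_of_mem_primeFactors hp
    rw [mem_insert, mem_filter]
    by_cases h2 : p = 2
    · exact Or.inl h2
    · refine Or.inr ⟨?_, h2, ?_⟩
      · rw [hY, Nat.mem_primeFactors]
        exact ⟨hpp, Dvd.dvd.mul_left hpa _, mul_ne_zero (pow_ne_zero _ hb0) ha0⟩
      · rw [hY, Nat.factorization_mul (pow_ne_zero _ hb0) ha0, Nat.factorization_pow,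
          Finsupp.add_apply, Finsupp.smul_apply, smul_eq_mul,
          Nat.factorization_eq_one_of_squarefree ha hpp hpa]
        exact ⟨b.factorization p, rfl⟩
  have h1 : ∏ p ∈ a.primeFactors, p = a := Nat.prod_primeFactors_of_squarefree ha
  have hpos : ∀ p ∈ insert 2 (Y.natAbs.primeFactors.filter
      (fun p => p ≠ 2 ∧ Odd (Y.natAbs.factorization p))), 1 ≤ p := by
    intro p hp
    rw [mem_insert, mem_filter] at hp
    rcases hp with hp | hp
    · omega
    · exact (Nat.prime_of_mem_primeFactors hp.1).one_lt.le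
  have h2 : ∏ p ∈ a.primeFactors, p ≤ ∏ p ∈ insert 2 (Y.natAbs.primeFactors.filter
      (fun p => p ≠ 2 ∧ Odd (Y.natAbs.factorization p))), p :=
    prod_le_prod_of_subset_of_one_le' hsub fun p hp _ => hpos p hp
  rw [h1, prod_insert (by simp)] at h2
  exact h2

theorem st_OSF (hE : ST_EXC) : ST_OSF := by
  obtain ⟨c, x0, hc, hE⟩ := hE
  refine ⟨c, x0, hc, ?_⟩
  intro Y x z hY hns hx hz hlog hsum
  obtain ⟨a, b, hab, hsq⟩ := Nat.sq_mul_squarefree Y.natAbs
  have hYn : (Y.natAbs : ℤ) = Y := Int.natAbs_of_nonneg (by omega)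
  have hY0 : Y.natAbs ≠ 0 := by omega
  have hb0 : b ≠ 0 := by
    rintro rfl
    apply hY0
    rw [← hab]
    simp
  have ha0 : a ≠ 0 := hsq.ne_zero
  have hYab : Y = (b : ℤ) ^ 2 * a := by
    rw [← hYn, ← hab]
    push_cast
    ring
  have hans : ¬ IsSquare a := by
    rintro ⟨s, hs⟩
    apply hns
    refine ⟨(b : ℤ) * s, ?_⟩
    rw [hYab, hs]
    push_cast
    ring
  have hle := osf_ge a b (by omega) hsq Y hab.symm
  have hfil : (Icc (z + 1) x).filter (fun p => p.Prime ∧ jacobiSym (a : ℤ) p ≠ 1) ⊆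
      (Icc (z + 1) x).filter (fun p => p.Prime ∧ jacobiSym Y p ≠ 1) := by
    intro p hp
    rw [mem_filter] at hp ⊢
    refine ⟨hp.1, hp.2.1, fun h => hp.2.2 ?_⟩
    rw [hYab, jacobiSym.mul_left, jacobiSym.pow_left] at h
    rcases jacobiSym.trichotomy (b : ℤ) p with g | g | g
    · rw [g] at h
      norm_num at h
    · rw [g] at h
      simpa using h
    · rw [g] at h
      simpa using h
  have h1 : (x : ℝ) ≤ (a : ℝ) ^ 2 := by
    refine hE a x z (by omega) hans hx hz hlog (le_trans ?_ hsum)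
    exact sum_le_sum_of_subset_of_nonneg hfil fun p _ _ => by positivity
  have h2 : (a : ℝ) ≤ 2 * (osf Y : ℝ) := by exact_mod_cast hle
  calc (x : ℝ) ≤ (a : ℝ) ^ 2 := h1
    _ ≤ (2 * (osf Y : ℝ)) ^ 2 := by
        have : (0 : ℝ) ≤ a := by positivity
        exact pow_le_pow_left₀ this h2 2
    _ = 4 * (osf Y : ℝ) ^ 2 := by ring

end Pool.Agent.Helper97.RD8
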